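import Pool.Agent.Helper92.AH.Defs

/-!
# MP_c38931_co, module IND: `H_n` is the lifted indicator function of `f ≠ 0`
-/

set_option autoImplicit false

namespace Pool.Agent.Helper92.AH

open MvPolynomial

theorem ind_ev_mul (p : ℕ) [Fact p.Prime] {F : Type} [Field F] {N : ℕ} {E : Type} [Field E]
    [Algebra F E] (x : Fin N → E) (G H : MvPolynomial (Fin N) (WittVector p F)) :
    ev p x (G * H) = ev p x G * ev p x H := by
  unfold ev
  exact eval₂_mul _ _

theorem ind_ev_prod (p : ℕ) [Fact p.Prime] {F : Type} [Field F] {N : ℕ} {E : Type} [Field E]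
    [Algebra F E] (x : Fin N → E) (s : Finset ℕ) (G : ℕ → MvPolynomial (Fin N) (WittVector p F)) :
    ev p x (∏ i ∈ s, G i) = ∏ i ∈ s, ev p x (G i) := by
  unfold ev
  exact eval₂_prod _ _ _ _

theorem ind_ev_expand (p : ℕ) [Fact p.Prime] {F : Type} [Field F] {N : ℕ} {E : Type} [Field E]
    [Algebra F E] (x : Fin N → E) (k : ℕ) (G : MvPolynomial (Fin N) (WittVector p F)) :
    ev p x (expand k G) = ev p (fun j => x j ^ k) G := by
  unfold ev
  induction G using MvPolynomial.induction_on with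
  | C a => rw [expand_C, eval₂_C, eval₂_C]
  | add a b ha hb => rw [map_add, eval₂_add, eval₂_add, ha, hb]
  | mul_X a j ha => rw [map_mul, expand_X, eval₂_mul, eval₂_mul, ha, eval₂_pow, eval₂_X, eval₂_X, map_pow]

theorem ind_frob (F E : Type) [Field F] [Finite F] [Field E] [Algebra F E] (i : ℕ) :
    ∃ ψ : E →ₐ[F] E, ∀ z, ψ z = z ^ (Nat.card F ^ i) := by
  have := Fintype.ofFinite F
  induction i with
  | zero => exact ⟨AlgHom.id F E, fun z => by simp⟩
  | succ i ih =>
    obtain ⟨ψ, hψ⟩ := ih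
    refine ⟨ψ.comp (FiniteField.frobeniusAlgHom F E), fun z => ?_⟩
    rw [AlgHom.comp_apply, hψ, FiniteField.frobeniusAlgHom_apply, ← pow_mul, Nat.card_eq_fintype_card, pow_succ']

theorem ind_dvd_prod {R : Type} [CommRing R] (d : R) (n : ℕ) (a b : ℕ → R)
    (h : ∀ i ∈ Finset.range n, d ∣ a i - b i) :
    d ∣ ∏ i ∈ Finset.range n, a i - ∏ i ∈ Finset.range n, b i := by
  induction n with
  | zero => simp
  | succ n ih =>
    rw [Finset.prod_range_succ, Finset.prod_range_succ]
    have h1 := ih fun i hi => h i (Finset.mem_range.2 ((Finset.mem_range.1 hi).trans (Nat.lt_succ_self n)))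
    have h2 := h n (Finset.mem_range.2 (Nat.lt_succ_self n))
    have e : (∏ i ∈ Finset.range n, a i) * a n - (∏ i ∈ Finset.range n, b i) * b n
        = (∏ i ∈ Finset.range n, a i - ∏ i ∈ Finset.range n, b i) * a n
          + (∏ i ∈ Finset.range n, b i) * (a n - b n) := by ring
    rw [e]
    exact dvd_add (h1.mul_right _) (h2.mul_left _)

theorem st_IND (hT : ST_TEICH) : ST_IND := by
  intro p _ F E _ _ _ _ _ _ N f x t _
  have hF := Fintype.ofFinite F
  have hE := Fintype.ofFinite E
  set q := Nat.card F with hq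
  set n := Module.finrank F E with hn
  have hn0 : 0 < n := Module.finrank_pos
  have hq2 : 1 < q := Finite.one_lt_card
  have hpq : p ∣ q := by
    obtain ⟨k, -, hk⟩ := FiniteField.card F p
    rw [hq, Nat.card_eq_fintype_card, hk]
    exact dvd_pow_self p k.ne_zero
  have hcard : Nat.card E = q ^ n := Module.natCard_eq_pow_finrank
  set m := (q - 1) * q ^ t with hm
  have hpm : p ^ t ∣ m := (pow_dvd_pow_of_dvd hpq t).mul_left _
  have h1 : ev p x (HH q n (tl p f ^ m)) = ∏ i ∈ Finset.range n, ev p (fun j => x j ^ (q ^ i)) (tl p f ^ m) := by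
    unfold HH
    rw [ind_ev_prod]
    exact Finset.prod_congr rfl fun i _ => ind_ev_expand p x (q ^ i) _
  have h2 : (p : WittVector p E) ^ (t + 1) ∣ ev p x (HH q n (tl p f ^ m))
      - ∏ i ∈ Finset.range n, WittVector.teichmuller p (aeval x f) ^ (q ^ i * m) := by
    rw [h1]
    refine ind_dvd_prod _ n _ _ fun i _ => ?_
    have h3 := hT p F E N f (fun j => x j ^ (q ^ i)) t m hpm
    obtain ⟨ψ, hψ⟩ := ind_frob F E i
    have h4 : aeval (fun j => x j ^ (q ^ i)) f = aeval x f ^ (q ^ i) := by
      have h5 : (fun j => x j ^ (q ^ i)) = fun j => ψ (x j) := by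
        funext j
        rw [hψ]
      rw [h5, ← hψ]
      exact (MvPolynomial.comp_aeval_apply (f := x) ψ f).symm
    rw [h4, map_pow, ← pow_mul] at h3
    exact h3
  have h6 : ∏ i ∈ Finset.range n, WittVector.teichmuller p (aeval x f) ^ (q ^ i * m)
      = WittVector.teichmuller p (aeval x f ^ ((q ^ n - 1) * q ^ t)) := by
    rw [Finset.prod_pow_eq_pow_sum, ← Finset.sum_mul, map_pow]
    congr 1
    have h7 := geom_sum_mul_add (q - 1) n
    have h8 : q - 1 + 1 = q := Nat.sub_add_cancel hq2.le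
    rw [h8] at h7
    rw [hm, ← mul_assoc, ← h7, Nat.add_sub_cancel]
  rw [h6] at h2
  have h9 : WittVector.teichmuller p (aeval x f ^ ((q ^ n - 1) * q ^ t)) = (if aeval x f = 0 then 0 else 1 : WittVector p E) := by
    by_cases h0 : aeval x f = 0
    · rw [if_pos h0, h0, zero_pow, WittVector.teichmuller_zero]
      have : 1 < q ^ n := Nat.one_lt_pow hn0.ne' hq2
      exact (Nat.mul_pos (by omega) (pow_pos (by omega) _)).ne'
    · rw [if_neg h0, pow_mul, ← hcard, Nat.card_eq_fintype_card, FiniteField.pow_card_sub_one_eq_one _ h0,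
        one_pow, map_one]
  rw [h9] at h2
  exact h2

end Pool.Agent.Helper92.AH
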